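import Mathlib
import Pool.Agent.Helper278.Defs
import Pool.Agent.Helper278.DefsG
import Pool.Agent.Helper278.GroupMain

/-!
# Tracial ultrapowers of II₁ factors are not group von Neumann algebras
-/

set_option autoImplicit false

open scoped BoundedContinuousFunction

namespace Pool.Agent.Results.MP_a0a75b_an.EveryIIOneFactor

open Pool.Agent.Helper278

universe u v w

/-- The tracial ultrapower of `(M, τ)` along every ultrafilter on `ℕ` exists. -/
def UltrapowersExist (M : Type u) [NormedRing M] [StarRing M] [CStarRing M]
    [NormedAlgebra ℂ M] [StarModule ℂ M] (τ : M → ℂ) : Prop :=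
  ∀ U : Ultrafilter ℕ, ∃ (Q : Type u) (_ : Ring Q) (_ : StarRing Q) (_ : Algebra ℂ Q)
    (_ : StarModule ℂ Q) (π : (ℕ →ᵇ M) →⋆ₐ[ℂ] Q) (σ : Q → ℂ), IsTracialUltrapower τ U π σ

/-- Every group has a left regular representation. -/
def LeftRegularsExist : Prop :=
  ∀ (G : Type v) [Group G], ∃ (K : Type v) (_ : NormedAddCommGroup K) (_ : InnerProductSpace ℂ K)
    (_ : CompleteSpace K) (b : HilbertBasis G ℂ K) (lam : G → K →L[ℂ] K), IsLeftRegular b lam

/-- Let `N` be any II₁ factor, on a Hilbert space of arbitrary dimension, hyperfinite or not, with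
trace `τ`, and let `U` be any nonprincipal ultrafilter on `ℕ`. The tracial ultrapower of `(N, τ)` along
`U` exists, and it is isomorphic to no group von Neumann algebra `L(G)`, the von Neumann algebra
generated by the left regular representation of a discrete group `G` of arbitrary cardinality (this
representation exists). -/
theorem result {H : Type u} [NormedAddCommGroup H] [InnerProductSpace ℂ H] [CompleteSpace H]
    (N : VonNeumannAlgebra H) (τ : Elt N → ℂ) (h : IsIIOneFactor N τ) :
    UltrapowersExist (Elt N) τ ∧ LeftRegularsExist.{v} ∧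
      UltrapowersNotGroupVN.{u, v, w} (Elt N) τ := by
  refine ⟨fun U => exists_ultrapower (mkState N τ h.normal h.trace) U, fun G _ => ?_,
    ultrapowersNotGroupVN τ h⟩
  obtain ⟨b, lam, hb, -⟩ := exists_leftRegular G
  exact ⟨lp (fun _ : G => ℂ) 2, inferInstance, inferInstance, inferInstance, b, lam, hb⟩

end Pool.Agent.Results.MP_a0a75b_an.EveryIIOneFactor
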